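import Pool.Agent.H447.QR.Stm2

/-!
# Project QR, task HTA (helper407): the height of a sum
-/

set_option autoImplicit false

open WeierstrassCurve

namespace Pool.Agent.H407.QR.HTA

open Pool.Agent.H447.QR

/-- height of a fraction -/
theorem ht_le (X : ℚ) (N D : ℤ) (hD : D ≠ 0) (h : X * D = N) (B : ℕ) (hN : N.natAbs ≤ B)
    (hDB : D.natAbs ≤ B) : max X.num.natAbs X.den ≤ B := by
  have hX : X * X.den = X.num := Rat.mul_den_eq_num X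
  have hd0 : (X.den : ℚ) ≠ 0 := by exact_mod_cast X.den_nz
  have h1 : X.num * D = N * X.den := by
    have h2 : (X.num : ℚ) * D = N * X.den := by
      rw [← hX, ← h]
      ring
    exact_mod_cast h2
  have hc0 : IsCoprime X.num (X.den : ℤ) := Int.isCoprime_iff_gcd_eq_one.2 X.reduced
  have hc := hc0.symm
  obtain ⟨k, hk⟩ : (X.den : ℤ) ∣ D :=
    hc.dvd_of_dvd_mul_left (Dvd.intro_left _ h1.symm)
  have hdz : (X.den : ℤ) ≠ 0 := by exact_mod_cast X.den_nz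
  have hk0 : k ≠ 0 := by
    rintro rfl
    exact hD (by rw [hk, mul_zero])
  have h2 : X.num * k = N := by
    rw [hk] at h1
    apply mul_right_cancel₀ hdz
    linear_combination h1
  refine max_le ?_ ?_
  · refine le_trans ?_ hN
    rw [← h2, Int.natAbs_mul]
    exact Nat.le_mul_of_pos_right _ (Int.natAbs_pos.2 hk0)
  · refine le_trans ?_ hDB
    rw [hk, Int.natAbs_mul, Int.natAbs_natCast]
    exact Nat.le_mul_of_pos_right _ (Int.natAbs_pos.2 hk0)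

/-- the shape of the rational points of `y² = x³ + a x + b` -/
theorem shape (a b : ℤ) (X Y : ℚ) (h : Y ^ 2 = X ^ 3 + a * X + b) :
    ∃ (q : ℤ) (s : ℕ), 0 < s ∧ X.den = s ^ 2 ∧ Y * (s : ℚ) ^ 3 = q ∧
      q ^ 2 = X.num ^ 3 + a * X.num * (s : ℤ) ^ 4 + b * (s : ℤ) ^ 6 := by
  have hd0 : (X.den : ℚ) ≠ 0 := by exact_mod_cast X.den_nz
  have he0 : (Y.den : ℚ) ≠ 0 := by exact_mod_cast Y.den_nz
  have hX : X * X.den = X.num := Rat.mul_den_eq_num X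
  have hY : Y * Y.den = Y.num := Rat.mul_den_eq_num Y
  have h1 : (Y.num : ℚ) ^ 2 * (X.den : ℚ) ^ 3 =
      ((X.num : ℚ) ^ 3 + a * X.num * (X.den : ℚ) ^ 2 + b * (X.den : ℚ) ^ 3) * (Y.den : ℚ) ^ 2 := by
    rw [← hX, ← hY]
    linear_combination (Y.den : ℚ) ^ 2 * (X.den : ℚ) ^ 3 * h
  have h2 : Y.num ^ 2 * (X.den : ℤ) ^ 3 =
      (X.num ^ 3 + a * X.num * (X.den : ℤ) ^ 2 + b * (X.den : ℤ) ^ 3) * (Y.den : ℤ) ^ 2 := by
    exact_mod_cast h1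
  have hc1 : IsCoprime X.num (X.den : ℤ) := Int.isCoprime_iff_gcd_eq_one.2 X.reduced
  have hc2 : IsCoprime Y.num (Y.den : ℤ) := Int.isCoprime_iff_gcd_eq_one.2 Y.reduced
  have hc3 : IsCoprime (X.num ^ 3 + a * X.num * (X.den : ℤ) ^ 2 + b * (X.den : ℤ) ^ 3) (X.den : ℤ) := by
    have h3 : IsCoprime (X.num ^ 3) (X.den : ℤ) := hc1.pow_left
    have h4 := h3.add_mul_left_left (a * X.num * (X.den : ℤ) + b * (X.den : ℤ) ^ 2)
    have h5 : X.num ^ 3 + (X.den : ℤ) * (a * X.num * (X.den : ℤ) + b * (X.den : ℤ) ^ 2) =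
      X.num ^ 3 + a * X.num * (X.den : ℤ) ^ 2 + b * (X.den : ℤ) ^ 3 := by ring
    rwa [h5] at h4
  have hdvd1 : (X.den : ℤ) ^ 3 ∣ (Y.den : ℤ) ^ 2 := by
    have h6 : (X.den : ℤ) ^ 3 ∣
        (X.num ^ 3 + a * X.num * (X.den : ℤ) ^ 2 + b * (X.den : ℤ) ^ 3) * (Y.den : ℤ) ^ 2 := by
      rw [← h2]
      exact Dvd.intro_left _ rfl
    exact (hc3.symm.pow_left (m := 3)).dvd_of_dvd_mul_left h6
  have hdvd2 : (Y.den : ℤ) ^ 2 ∣ (X.den : ℤ) ^ 3 := by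
    have h6 : (Y.den : ℤ) ^ 2 ∣ Y.num ^ 2 * (X.den : ℤ) ^ 3 := by
      rw [h2]
      exact Dvd.intro_left _ rfl
    exact (hc2.symm.pow (m := 2) (n := 2)).dvd_of_dvd_mul_left h6
  have heq : X.den ^ 3 = Y.den ^ 2 := by
    apply Nat.dvd_antisymm
    · exact_mod_cast hdvd1
    · exact_mod_cast hdvd2
  have hde : X.den ∣ Y.den := by
    rw [← Nat.pow_dvd_pow_iff (two_ne_zero), ← heq]
    exact ⟨X.den, by ring⟩
  obtain ⟨s, hs⟩ := hde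
  have hdpos : 0 < X.den := X.den_pos
  have hss : X.den = s ^ 2 := by
    rw [hs] at heq
    have h7 : X.den ^ 2 * X.den = X.den ^ 2 * s ^ 2 := by
      calc X.den ^ 2 * X.den = X.den ^ 3 := by ring
        _ = (X.den * s) ^ 2 := heq
        _ = X.den ^ 2 * s ^ 2 := by ring
    exact Nat.eq_of_mul_eq_mul_left (by positivity) h7
  have hs3 : Y.den = s ^ 3 := by
    rw [hs, hss]
    ring
  have hspos : 0 < s := by
    rcases Nat.eq_zero_or_pos s with h0 | h0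
    · rw [h0] at hss
      norm_num at hss
    · exact h0
  refine ⟨Y.num, s, hspos, hss, ?_, ?_⟩
  · rw [← hY, hs3]
    push_cast
    ring
  · have h8 : (X.den : ℤ) = (s : ℤ) ^ 2 := by exact_mod_cast hss
    have h9 : (Y.den : ℤ) = (s : ℤ) ^ 3 := by exact_mod_cast hs3
    rw [h8, h9] at h2
    have hs6 : ((s : ℤ) ^ 6) ≠ 0 := by
      have : (s : ℤ) ≠ 0 := by exact_mod_cast hspos.ne'
      positivity
    apply mul_right_cancel₀ hs6
    linear_combination h2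

/-- height of a rational number -/
def hq (X : ℚ) : ℕ := max X.num.natAbs X.den

theorem hq_pos (X : ℚ) : 1 ≤ hq X := le_max_of_le_right X.den_pos

/-- coordinates and bounds -/
theorem coords (a b : ℤ) (X Y : ℚ) (h : Y ^ 2 = X ^ 3 + a * X + b) :
    ∃ r n t : ℤ, 0 < t ∧ X * t ^ 2 = r ∧ Y * t ^ 3 = n ∧ |r| ≤ hq X ∧ t ^ 2 ≤ hq X ∧
      |n * t| ≤ (|a| + |b| + 1) * (hq X : ℤ) ^ 2 := by
  obtain ⟨q, s, hs, hden, hY, hq2⟩ := shape a b X Y h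
  have hX : X * X.den = X.num := Rat.mul_den_eq_num X
  obtain ⟨H, hH⟩ : ∃ H : ℤ, H = (hq X : ℤ) := ⟨_, rfl⟩
  have h1 : |X.num| ≤ H := by
    rw [hH, Int.abs_eq_natAbs]
    unfold hq
    exact_mod_cast le_max_left _ _
  have h2 : (s : ℤ) ^ 2 ≤ H := by
    rw [hH]
    unfold hq
    rw [hden]
    exact_mod_cast le_max_right _ _
  have hH0 : 0 ≤ H := (abs_nonneg _).trans h1
  have hH1 : 1 ≤ H := by
    rw [hH]
    exact_mod_cast hq_pos X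
  have hs0 : (0 : ℤ) < s := by exact_mod_cast hs
  refine ⟨X.num, q, s, hs0, ?_, ?_, ?_, ?_, ?_⟩
  · rw [← hX, hden]
    push_cast
    ring
  · rw [← hY]
    push_cast
    ring
  · rw [← hH]; exact h1
  · rw [← hH]; exact h2
  · rw [← hH]
    obtain ⟨S, hS⟩ : ∃ S : ℤ, S = (s : ℤ) ^ 2 := ⟨_, rfl⟩
    rw [← hS] at h2
    have hS0 : 0 ≤ S := by rw [hS]; positivity
    obtain ⟨m, hm⟩ : ∃ m : ℤ, m = |a| + |b| + 1 := ⟨_, rfl⟩
    have ha := abs_nonneg a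
    have hb := abs_nonneg b
    have hm1 : 1 ≤ m := by rw [hm]; linarith
    rw [← hm]
    have e1 : (q * s) ^ 2 = X.num ^ 3 * S + a * X.num * S ^ 3 + b * S ^ 4 := by
      rw [mul_pow, hq2, hS]
      ring
    have b1 : X.num ^ 3 * S ≤ H ^ 4 := by
      calc X.num ^ 3 * S ≤ |X.num ^ 3 * S| := le_abs_self _
        _ = |X.num| ^ 3 * S := by rw [abs_mul, abs_pow, abs_of_nonneg hS0]
        _ ≤ H ^ 3 * H := mul_le_mul (pow_le_pow_left₀ (abs_nonneg _) h1 3) h2 hS0 (by positivity)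
        _ = H ^ 4 := by ring
    have b2 : a * X.num * S ^ 3 ≤ |a| * H ^ 4 := by
      calc a * X.num * S ^ 3 ≤ |a * X.num * S ^ 3| := le_abs_self _
        _ = |a| * (|X.num| * S ^ 3) := by
          rw [abs_mul, abs_mul, abs_pow, abs_of_nonneg hS0, mul_assoc]
        _ ≤ |a| * (H * H ^ 3) := by
          refine mul_le_mul_of_nonneg_left ?_ ha
          exact mul_le_mul h1 (pow_le_pow_left₀ hS0 h2 3) (by positivity) hH0
        _ = |a| * H ^ 4 := by ring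
    have b3 : b * S ^ 4 ≤ |b| * H ^ 4 := by
      calc b * S ^ 4 ≤ |b| * S ^ 4 := mul_le_mul_of_nonneg_right (le_abs_self b) (by positivity)
        _ ≤ |b| * H ^ 4 := mul_le_mul_of_nonneg_left (pow_le_pow_left₀ hS0 h2 4) hb
    have b4 : (q * s) ^ 2 ≤ (m * H ^ 2) ^ 2 := by
      have e2 : (q * s) ^ 2 ≤ m * H ^ 4 := by
        rw [e1, hm]
        linarith
      have e3 : m * H ^ 4 ≤ m * m * H ^ 4 := by
        refine mul_le_mul_of_nonneg_right ?_ (by positivity)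
        exact le_mul_of_one_le_left (by linarith) hm1
      have e4 : (m * H ^ 2) ^ 2 = m * m * H ^ 4 := by ring
      rw [e4]
      exact e2.trans e3
    exact abs_le_of_sq_le_sq b4 (by positivity)

/-- the constant, as an integer -/
theorem C2_cast (a b : ℤ) : ((C2 a b : ℕ) : ℤ) = 20 * (|a| + |b| + 1) ^ 2 := by
  unfold C2
  push_cast
  rfl

/-- the case of different first coordinates -/
theorem add_ne (a b : ℤ) (x₁ y₁ x₂ y₂ : ℚ) (h₁ : y₁ ^ 2 = x₁ ^ 3 + a * x₁ + b)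
    (h₂ : y₂ ^ 2 = x₂ ^ 3 + a * x₂ + b) (hx : x₁ ≠ x₂) :
    hq (((y₁ - y₂) / (x₁ - x₂)) ^ 2 - x₁ - x₂) ≤ C2 a b * (hq x₁ ^ 2 * hq x₂ ^ 2) := by
  obtain ⟨r₁, n₁, t₁, ht₁, hr₁, hn₁, br₁, bt₁, bn₁⟩ := coords a b x₁ y₁ h₁
  obtain ⟨r₂, n₂, t₂, ht₂, hr₂, hn₂, br₂, bt₂, bn₂⟩ := coords a b x₂ y₂ h₂
  have ht₁q : (t₁ : ℚ) ≠ 0 := by exact_mod_cast ht₁.ne'
  have ht₂q : (t₂ : ℚ) ≠ 0 := by exact_mod_cast ht₂.ne'
  have hx' : x₁ - x₂ ≠ 0 := sub_ne_zero.2 hx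
  obtain ⟨N, hN⟩ : ∃ N : ℤ, N = (r₁ * r₂ + a * (t₁ ^ 2 * t₂ ^ 2)) * (r₁ * t₂ ^ 2 + r₂ * t₁ ^ 2) +
      2 * b * ((t₁ ^ 2) ^ 2 * (t₂ ^ 2) ^ 2) - 2 * ((n₁ * t₁) * (n₂ * t₂)) := ⟨_, rfl⟩
  obtain ⟨D, hD⟩ : ∃ D : ℤ, D = (r₁ * t₂ ^ 2 - r₂ * t₁ ^ 2) ^ 2 := ⟨_, rfl⟩
  have hDq : (D : ℚ) = (t₁ ^ 2 * t₂ ^ 2 * (x₁ - x₂)) ^ 2 := by
    rw [hD]
    push_cast
    rw [← hr₁, ← hr₂]
    ring
  have hNq : (N : ℚ) = (t₁ : ℚ) ^ 4 * (t₂ : ℚ) ^ 4 *
      ((x₁ * x₂ + a) * (x₁ + x₂) + 2 * b - 2 * y₁ * y₂) := by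
    rw [hN]
    push_cast
    rw [← hr₁, ← hr₂, ← hn₁, ← hn₂]
    ring
  have hD0 : D ≠ 0 := by
    intro h
    have h3 : (D : ℚ) = 0 := by exact_mod_cast h
    rw [hDq] at h3
    have h4 := pow_eq_zero_iff (two_ne_zero) |>.1 h3
    have h5 : (t₁ : ℚ) ^ 2 * (t₂ : ℚ) ^ 2 * (x₁ - x₂) ≠ 0 := by positivity
    exact h5 h4
  have key : (((y₁ - y₂) / (x₁ - x₂)) ^ 2 - x₁ - x₂) * D = N := by
    rw [hDq, hNq]
    field_simp
    linear_combination h₁ + h₂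
  obtain ⟨H₁, hH₁⟩ : ∃ H : ℤ, H = (hq x₁ : ℤ) := ⟨_, rfl⟩
  obtain ⟨H₂, hH₂⟩ : ∃ H : ℤ, H = (hq x₂ : ℤ) := ⟨_, rfl⟩
  rw [← hH₁] at br₁ bt₁ bn₁
  rw [← hH₂] at br₂ bt₂ bn₂
  obtain ⟨m, hm⟩ : ∃ m : ℤ, m = |a| + |b| + 1 := ⟨_, rfl⟩
  rw [← hm] at bn₁ bn₂
  have ha := abs_nonneg a
  have hb := abs_nonneg b
  have hm1 : 1 ≤ m := by rw [hm]; linarith
  have hH₁0 : 0 ≤ H₁ := (abs_nonneg _).trans br₁
  have hH₂0 : 0 ≤ H₂ := (abs_nonneg _).trans br₂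
  obtain ⟨s₁, hs₁⟩ : ∃ s : ℤ, s = t₁ ^ 2 := ⟨_, rfl⟩
  obtain ⟨s₂, hs₂⟩ : ∃ s : ℤ, s = t₂ ^ 2 := ⟨_, rfl⟩
  have hs₁0 : 0 ≤ s₁ := by rw [hs₁]; positivity
  have hs₂0 : 0 ≤ s₂ := by rw [hs₂]; positivity
  rw [← hs₁] at bt₁ hN hD
  rw [← hs₂] at bt₂ hN hD
  have c1 : |r₁ * s₂| ≤ H₁ * H₂ := by
    rw [abs_mul, abs_of_nonneg hs₂0]
    exact mul_le_mul br₁ bt₂ hs₂0 hH₁0
  have c2 : |r₂ * s₁| ≤ H₁ * H₂ := by
    rw [abs_mul, abs_of_nonneg hs₁0, mul_comm H₁]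
    exact mul_le_mul br₂ bt₁ hs₁0 hH₂0
  have c3 : |r₁ * r₂| ≤ H₁ * H₂ := by
    rw [abs_mul]
    exact mul_le_mul br₁ br₂ (abs_nonneg _) hH₁0
  have c4 : s₁ * s₂ ≤ H₁ * H₂ := mul_le_mul bt₁ bt₂ hs₂0 hH₁0
  have c40 : 0 ≤ s₁ * s₂ := mul_nonneg hs₁0 hs₂0
  have hK0 : 0 ≤ H₁ * H₂ := mul_nonneg hH₁0 hH₂0
  obtain ⟨K, hK⟩ : ∃ K : ℤ, K = H₁ * H₂ := ⟨_, rfl⟩
  rw [← hK] at c1 c2 c3 c4 hK0
  have hbig : |N| ≤ 20 * m ^ 2 * K ^ 2 := by
    have d1 : |(r₁ * r₂ + a * (s₁ * s₂)) * (r₁ * s₂ + r₂ * s₁)| ≤ ((1 + |a|) * K) * (2 * K) := by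
      rw [abs_mul]
      refine mul_le_mul ?_ ?_ (abs_nonneg _) (by positivity)
      · refine (abs_add_le _ _).trans ?_
        have : |a * (s₁ * s₂)| ≤ |a| * K := by
          rw [abs_mul, abs_of_nonneg c40]
          exact mul_le_mul_of_nonneg_left c4 ha
        linarith
      · refine (abs_add_le _ _).trans ?_
        linarith
    have d2 : |2 * b * (s₁ ^ 2 * s₂ ^ 2)| ≤ 2 * |b| * K ^ 2 := by
      have e : s₁ ^ 2 * s₂ ^ 2 = (s₁ * s₂) ^ 2 := by ring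
      rw [e, abs_mul, abs_mul, abs_of_nonneg (sq_nonneg (s₁ * s₂))]
      have e2 : |(2 : ℤ)| = 2 := rfl
      rw [e2]
      exact mul_le_mul_of_nonneg_left (pow_le_pow_left₀ c40 c4 2) (by positivity)
    have d3 : |2 * ((n₁ * t₁) * (n₂ * t₂))| ≤ 2 * (m ^ 2 * K ^ 2) := by
      rw [abs_mul, abs_mul (n₁ * t₁)]
      have e2 : |(2 : ℤ)| = 2 := rfl
      rw [e2]
      refine mul_le_mul_of_nonneg_left ?_ (by norm_num)
      calc |n₁ * t₁| * |n₂ * t₂| ≤ (m * H₁ ^ 2) * (m * H₂ ^ 2) :=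
            mul_le_mul bn₁ bn₂ (abs_nonneg _) (by positivity)
        _ = m ^ 2 * K ^ 2 := by rw [hK]; ring
    have d4 : |N| ≤ ((1 + |a|) * K) * (2 * K) + 2 * |b| * K ^ 2 + 2 * (m ^ 2 * K ^ 2) := by
      rw [hN]
      refine (abs_sub _ _).trans ?_
      refine add_le_add ((abs_add_le _ _).trans ?_) d3
      exact add_le_add d1 d2
    have d5 : ((1 + |a|) * K) * (2 * K) + 2 * |b| * K ^ 2 = 2 * m * K ^ 2 := by
      rw [hm]
      ring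
    have d6 : m * K ^ 2 ≤ m ^ 2 * K ^ 2 := by
      refine mul_le_mul_of_nonneg_right ?_ (by positivity)
      nlinarith
    have d7 : 0 ≤ m ^ 2 * K ^ 2 := by positivity
    nlinarith
  have hbigD : |D| ≤ 20 * m ^ 2 * K ^ 2 := by
    rw [hD, abs_pow]
    have d1 : |r₁ * s₂ - r₂ * s₁| ≤ 2 * K := by
      refine (abs_sub _ _).trans ?_
      linarith
    have d2 := pow_le_pow_left₀ (abs_nonneg _) d1 2
    have d3 : (1 : ℤ) ≤ m ^ 2 := by nlinarith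
    have d4 : 1 * K ^ 2 ≤ m ^ 2 * K ^ 2 := mul_le_mul_of_nonneg_right d3 (by positivity)
    have d5 : 0 ≤ m ^ 2 * K ^ 2 := by positivity
    nlinarith
  have hB : ((C2 a b * (hq x₁ ^ 2 * hq x₂ ^ 2) : ℕ) : ℤ) = 20 * m ^ 2 * K ^ 2 := by
    rw [hK, hH₁, hH₂, hm]
    push_cast
    rw [C2_cast]
    ring
  refine ht_le _ N D hD0 key _ ?_ ?_
  · have : (N.natAbs : ℤ) ≤ ((C2 a b * (hq x₁ ^ 2 * hq x₂ ^ 2) : ℕ) : ℤ) := by
      rw [hB, ← Int.abs_eq_natAbs]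
      exact hbig
    exact_mod_cast this
  · have : (D.natAbs : ℤ) ≤ ((C2 a b * (hq x₁ ^ 2 * hq x₂ ^ 2) : ℕ) : ℤ) := by
      rw [hB, ← Int.abs_eq_natAbs]
      exact hbigD
    exact_mod_cast this

/-- duplication -/
theorem add_self (a b : ℤ) (x y : ℚ) (h : y ^ 2 = x ^ 3 + a * x + b) (hy : y ≠ 0) :
    hq (((3 * x ^ 2 + a) / (2 * y)) ^ 2 - x - x) ≤ C2 a b * (hq x ^ 2 * hq x ^ 2) := by
  have hX : x * x.den = x.num := Rat.mul_den_eq_num x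
  have hd0 : (x.den : ℚ) ≠ 0 := by exact_mod_cast x.den_nz
  obtain ⟨r, hr⟩ : ∃ r : ℤ, r = x.num := ⟨_, rfl⟩
  obtain ⟨s, hs⟩ : ∃ s : ℤ, s = (x.den : ℤ) := ⟨_, rfl⟩
  obtain ⟨H, hH⟩ : ∃ H : ℤ, H = (hq x : ℤ) := ⟨_, rfl⟩
  have h1 : |r| ≤ H := by
    rw [hH, hr, Int.abs_eq_natAbs]
    unfold hq
    exact_mod_cast le_max_left _ _
  have h2 : s ≤ H := by
    rw [hH, hs]
    unfold hq
    exact_mod_cast le_max_right _ _
  have hs0 : 0 < s := by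
    rw [hs]
    exact_mod_cast x.den_pos
  have hH0 : 0 ≤ H := (abs_nonneg _).trans h1
  have hxs : x * (s : ℚ) = r := by
    rw [hs, hr]
    exact_mod_cast hX
  have hsq : (s : ℚ) ≠ 0 := by exact_mod_cast hs0.ne'
  obtain ⟨N, hN⟩ : ∃ N : ℤ, N = r ^ 4 - 2 * a * r ^ 2 * s ^ 2 - 8 * b * r * s ^ 3 +
      a ^ 2 * s ^ 4 := ⟨_, rfl⟩
  obtain ⟨D, hD⟩ : ∃ D : ℤ, D = 4 * s * (r ^ 3 + a * r * s ^ 2 + b * s ^ 3) := ⟨_, rfl⟩
  have hNq : (N : ℚ) = (s : ℚ) ^ 4 * (x ^ 4 - 2 * a * x ^ 2 - 8 * b * x + a ^ 2) := by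
    rw [hN]
    push_cast
    rw [← hxs]
    ring
  have hDq : (D : ℚ) = (s : ℚ) ^ 4 * (4 * y ^ 2) := by
    rw [hD, h]
    push_cast
    rw [← hxs]
    ring
  have hD0 : D ≠ 0 := by
    intro h'
    have h3 : (D : ℚ) = 0 := by exact_mod_cast h'
    rw [hDq] at h3
    have h5 : (s : ℚ) ^ 4 * (4 * y ^ 2) ≠ 0 := by positivity
    exact h5 h3
  have key : (((3 * x ^ 2 + a) / (2 * y)) ^ 2 - x - x) * D = N := by
    rw [hDq, hNq]
    field_simp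
    linear_combination (-32 * x) * h
  obtain ⟨m, hm⟩ : ∃ m : ℤ, m = |a| + |b| + 1 := ⟨_, rfl⟩
  have ha := abs_nonneg a
  have hb := abs_nonneg b
  have hm1 : 1 ≤ m := by rw [hm]; linarith
  have hs0' := hs0.le
  have p2 := pow_le_pow_left₀ (abs_nonneg r) h1 2
  have p3 := pow_le_pow_left₀ (abs_nonneg r) h1 3
  have p4 := pow_le_pow_left₀ (abs_nonneg r) h1 4
  have q2 := pow_le_pow_left₀ hs0' h2 2
  have q3 := pow_le_pow_left₀ hs0' h2 3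
  have q4 := pow_le_pow_left₀ hs0' h2 4
  have u1 : |2 * a * r ^ 2 * s ^ 2| ≤ 2 * |a| * H ^ 4 := by
    have e : |2 * a * r ^ 2 * s ^ 2| = 2 * |a| * (|r| ^ 2 * s ^ 2) := by
      rw [abs_mul, abs_mul, abs_mul, abs_pow, abs_pow, abs_of_pos hs0]
      have e2 : |(2 : ℤ)| = 2 := rfl
      rw [e2]
      ring
    rw [e]
    refine mul_le_mul_of_nonneg_left ?_ (by positivity)
    calc |r| ^ 2 * s ^ 2 ≤ H ^ 2 * H ^ 2 := mul_le_mul p2 q2 (by positivity) (by positivity)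
      _ = H ^ 4 := by ring
  have u2 : |8 * b * r * s ^ 3| ≤ 8 * |b| * H ^ 4 := by
    have e : |8 * b * r * s ^ 3| = 8 * |b| * (|r| * s ^ 3) := by
      rw [abs_mul, abs_mul, abs_mul, abs_pow, abs_of_pos hs0]
      have e2 : |(8 : ℤ)| = 8 := rfl
      rw [e2]
      ring
    rw [e]
    refine mul_le_mul_of_nonneg_left ?_ (by positivity)
    calc |r| * s ^ 3 ≤ H * H ^ 3 := mul_le_mul h1 q3 (by positivity) (by positivity)
      _ = H ^ 4 := by ring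
  have u3 : |a ^ 2 * s ^ 4| ≤ |a| ^ 2 * H ^ 4 := by
    rw [abs_mul, abs_pow, abs_pow, abs_of_pos hs0]
    exact mul_le_mul_of_nonneg_left q4 (by positivity)
  have u4 : |r ^ 4| ≤ H ^ 4 := by
    rw [abs_pow]
    exact p4
  have hbig : |N| ≤ 20 * m ^ 2 * H ^ 4 := by
    have d1 : |N| ≤ H ^ 4 + 2 * |a| * H ^ 4 + 8 * |b| * H ^ 4 + |a| ^ 2 * H ^ 4 := by
      rw [hN]
      refine (abs_add_le _ _).trans (add_le_add ?_ u3)
      refine (abs_sub _ _).trans (add_le_add ?_ u2)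
      exact (abs_sub _ _).trans (add_le_add u4 u1)
    have d2 : H ^ 4 + 2 * |a| * H ^ 4 + 8 * |b| * H ^ 4 + |a| ^ 2 * H ^ 4 =
        (1 + 2 * |a| + 8 * |b| + |a| ^ 2) * H ^ 4 := by ring
    have d3 : 1 + 2 * |a| + 8 * |b| + |a| ^ 2 ≤ 20 * m ^ 2 := by
      rw [hm]
      nlinarith [mul_nonneg ha hb, sq_nonneg (|a|), sq_nonneg (|b|)]
    rw [d2] at d1
    exact d1.trans (mul_le_mul_of_nonneg_right d3 (by positivity))
  have hbigD : |D| ≤ 20 * m ^ 2 * H ^ 4 := by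
    have d0 : |r ^ 3 + a * r * s ^ 2 + b * s ^ 3| ≤ m * H ^ 3 := by
      have v1 : |r ^ 3| ≤ H ^ 3 := by rw [abs_pow]; exact p3
      have v2 : |a * r * s ^ 2| ≤ |a| * H ^ 3 := by
        rw [abs_mul, abs_mul, abs_pow, abs_of_pos hs0, mul_assoc]
        refine mul_le_mul_of_nonneg_left ?_ ha
        calc |r| * s ^ 2 ≤ H * H ^ 2 := mul_le_mul h1 q2 (by positivity) hH0
          _ = H ^ 3 := by ring
      have v3 : |b * s ^ 3| ≤ |b| * H ^ 3 := by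
        rw [abs_mul, abs_pow, abs_of_pos hs0]
        exact mul_le_mul_of_nonneg_left q3 hb
      refine (abs_add_le _ _).trans ?_
      have v4 := (abs_add_le (r ^ 3) (a * r * s ^ 2)).trans (add_le_add v1 v2)
      have v5 : m * H ^ 3 = H ^ 3 + |a| * H ^ 3 + |b| * H ^ 3 := by rw [hm]; ring
      rw [v5]
      exact add_le_add v4 v3
    have d1 : |D| ≤ 4 * H * (m * H ^ 3) := by
      rw [hD, abs_mul, abs_mul, abs_of_pos hs0]
      have e2 : |(4 : ℤ)| = 4 := rfl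
      rw [e2]
      refine mul_le_mul ?_ d0 (abs_nonneg _) (by positivity)
      linarith
    have d2 : 4 * H * (m * H ^ 3) = 4 * m * H ^ 4 := by ring
    have d3 : 4 * m ≤ 20 * m ^ 2 := by nlinarith
    rw [d2] at d1
    exact d1.trans (mul_le_mul_of_nonneg_right d3 (by positivity))
  have hB : ((C2 a b * (hq x ^ 2 * hq x ^ 2) : ℕ) : ℤ) = 20 * m ^ 2 * H ^ 4 := by
    rw [hH, hm]
    push_cast
    rw [C2_cast]
    ring
  refine ht_le _ N D hD0 key _ ?_ ?_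
  · have : (N.natAbs : ℤ) ≤ ((C2 a b * (hq x ^ 2 * hq x ^ 2) : ℕ) : ℤ) := by
      rw [hB, ← Int.abs_eq_natAbs]
      exact hbig
    exact_mod_cast this
  · have : (D.natAbs : ℤ) ≤ ((C2 a b * (hq x ^ 2 * hq x ^ 2) : ℕ) : ℤ) := by
      rw [hB, ← Int.abs_eq_natAbs]
      exact hbigD
    exact_mod_cast this

theorem C2_pos (a b : ℤ) : 1 ≤ C2 a b := by
  unfold C2
  have : 0 < (a.natAbs + b.natAbs + 1) ^ 2 := by positivity
  omega

theorem Ht_some {a b X Y : ℚ} (h : (crv a b).toAffine.Nonsingular X Y) :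
    Ht (Affine.Point.some X Y h : Pt a b) = hq X := rfl

theorem Ht_zero {a b : ℚ} : Ht (0 : Pt a b) = 1 := rfl

theorem Ht_pos {a b : ℚ} (P : Pt a b) : 1 ≤ Ht P := by
  rcases P with _ | ⟨X, Y, h⟩
  · exact le_rfl
  · exact hq_pos X

theorem eqn {a b : ℤ} {X Y : ℚ} (h : (crv (a : ℚ) (b : ℚ)).toAffine.Nonsingular X Y) :
    Y ^ 2 = X ^ 3 + (a : ℚ) * X + b := by
  have h1 := h.1
  rw [Affine.equation_iff] at h1
  simp only at h1
  linear_combination h1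

theorem t_HTA : S_HTA := by
  intro a b hab P Q
  have hC := C2_pos a b
  have hP := Ht_pos P
  have hQ := Ht_pos Q
  have hPQ : 1 ≤ Ht P ^ 2 * Ht Q ^ 2 := Nat.one_le_iff_ne_zero.2 (by positivity)
  rcases P with _ | ⟨x₁, y₁, h₁⟩
  · rw [← Affine.Point.zero_def, zero_add, Ht_zero, one_pow, one_mul]
    calc Ht Q ≤ Ht Q ^ 2 := Nat.le_self_pow two_ne_zero _
      _ ≤ C2 a b * Ht Q ^ 2 := Nat.le_mul_of_pos_left _ hC
  · rcases Q with _ | ⟨x₂, y₂, h₂⟩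
    · rw [← Affine.Point.zero_def, add_zero, Ht_zero, one_pow, mul_one]
      calc Ht _ ≤ Ht _ ^ 2 := Nat.le_self_pow two_ne_zero _
        _ ≤ C2 a b * Ht _ ^ 2 := Nat.le_mul_of_pos_left _ hC
    · by_cases hxy : x₁ = x₂ ∧ y₁ = (crv (a : ℚ) (b : ℚ)).toAffine.negY x₂ y₂
      · rw [Affine.Point.add_of_Y_eq hxy.1 hxy.2, Ht_zero]
        exact Nat.mul_le_mul hC hPQ
      · rw [Affine.Point.add_some hxy, Ht_some, Ht_some, Ht_some]
        by_cases hx : x₁ = x₂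
        · have hy : y₁ ≠ (crv (a : ℚ) (b : ℚ)).toAffine.negY x₂ y₂ := fun h => hxy ⟨hx, h⟩
          have hyy := Affine.Y_eq_of_Y_ne h₁.1 h₂.1 hx hy
          rw [Affine.slope_of_Y_ne hx hy]
          subst hx
          subst hyy
          have hne : y₁ ≠ 0 := by
            intro h0
            apply hy
            unfold Affine.negY
            simp only
            rw [h0]
            ring
          have h3 := add_self a b x₁ y₁ (eqn h₁) hne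
          have e : (crv (a : ℚ) (b : ℚ)).toAffine.addX x₁ x₁ ((3 * x₁ ^ 2 +
              2 * (crv (a : ℚ) (b : ℚ)).toAffine.a₂ * x₁ + (crv (a : ℚ) (b : ℚ)).toAffine.a₄ -
              (crv (a : ℚ) (b : ℚ)).toAffine.a₁ * y₁) /
              (y₁ - (crv (a : ℚ) (b : ℚ)).toAffine.negY x₁ y₁)) =
              ((3 * x₁ ^ 2 + a) / (2 * y₁)) ^ 2 - x₁ - x₁ := by
            unfold Affine.addX Affine.negY
            simp only
            have e2 : y₁ - (-y₁ - 0 * x₁ - 0) = 2 * y₁ := by ring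
            rw [e2]
            ring
          rw [e]
          exact h3
        · rw [Affine.slope_of_X_ne hx]
          have h3 := add_ne a b x₁ y₁ x₂ y₂ (eqn h₁) (eqn h₂) hx
          have e : (crv (a : ℚ) (b : ℚ)).toAffine.addX x₁ x₂ ((y₁ - y₂) / (x₁ - x₂)) =
              ((y₁ - y₂) / (x₁ - x₂)) ^ 2 - x₁ - x₂ := by
            unfold Affine.addX
            simp only
            ring
          rw [e]
          exact h3

end Pool.Agent.H407.QR.HTA
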